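import Pool.Agent.X253.Retract

/-!
# Point stabilizers in projective profinite piles are retracts

If `(G, T)` is a projective pile and `G` is topologically finitely generated, then for every
`t : T` there is a continuous homomorphism `G → G_t` which is the identity on `G_t`.
-/

set_option autoImplicit false

namespace Pool.Agent.Results.MP_77349f_al.StabilizersAreRetracts

open Pool.Agent.X253.Piles

universe u

/-- If the pile `(G, T)` is projective and `G` is topologically finitely generated, then every
point stabilizer `G_t` is a retract of `G`. -/
theorem result (P : Pile.{u}) (hP : P.Projective) (hG : TopFG P.G) (t : P.T) :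
    ∃ r : P.G →* P.stab t, Continuous r ∧ ∀ h : P.stab t, r (h : P.G) = h :=
  Pool.Agent.X253.Retract.retract hP hG t

end Pool.Agent.Results.MP_77349f_al.StabilizersAreRetracts
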